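import Pool.Agent.helper84.DM.Defs
import Pool.Agent.helper58.LD.MV

/-!
DM project, module MV: mean value theorem for Dirichlet polynomials with the weights
`L + C n^(1+δ)`.
-/

set_option autoImplicit false

open Complex Metric MeasureTheory intervalIntegral
open Pool.Agent.helper6.LD

namespace Pool.Agent.helper84.DM

/-- the kernel `max(m,n)/|n-m|` off the diagonal -/
noncomputable def MV_c (m n : ℕ) : ℝ := max (m : ℝ) n / |(n : ℝ) - m|

lemma MV_c_symm (m n : ℕ) : MV_c m n = MV_c n m := by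
  unfold MV_c
  rw [max_comm, abs_sub_comm]

lemma MV_c_nonneg (m n : ℕ) : 0 ≤ MV_c m n := by
  unfold MV_c
  positivity

lemma MV_log {m n : ℕ} (hm : 1 ≤ m) (hn : 1 ≤ n) (hmn : n ≠ m) :
    0 < |Real.log n - Real.log m| ∧ 2 / |Real.log n - Real.log m| ≤ 2 * MV_c m n := by
  have aux : ∀ m n : ℕ, 1 ≤ m → m < n →
      |(n : ℝ) - m| / max (m : ℝ) n ≤ |Real.log n - Real.log m| := by
    intro m n hm hmn
    have hm' : (0 : ℝ) < m := by exact_mod_cast hm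
    have hn' : (0 : ℝ) < n := by exact_mod_cast (by omega : 0 < n)
    have hmn' : (m : ℝ) < n := by exact_mod_cast hmn
    have h1 : Real.log (m / n : ℝ) ≤ m / n - 1 := Real.log_le_sub_one_of_pos (by positivity)
    rw [Real.log_div hm'.ne' hn'.ne'] at h1
    rw [max_eq_right hmn'.le]
    have h3 : ((n : ℝ) - m) / n = 1 - m / n := by field_simp
    rw [abs_of_nonneg (by linarith : (0 : ℝ) ≤ (n : ℝ) - m)]
    refine le_trans ?_ (le_abs_self _)
    linarith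
  have hd : |(n : ℝ) - m| / max (m : ℝ) n ≤ |Real.log n - Real.log m| := by
    rcases lt_or_gt_of_ne hmn with h | h
    · rw [abs_sub_comm, abs_sub_comm (Real.log n), max_comm]
      exact aux n m hn h
    · exact aux m n hm h
  have hne : (n : ℝ) - m ≠ 0 := sub_ne_zero.2 (by exact_mod_cast hmn)
  have hpos2 : 0 < |(n : ℝ) - m| := abs_pos.2 hne
  have hmax : (0 : ℝ) < max (m : ℝ) n := lt_of_lt_of_le (by exact_mod_cast hm) (le_max_left _ _)
  have hlow : 0 < |(n : ℝ) - m| / max (m : ℝ) n := by positivity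
  refine ⟨lt_of_lt_of_le hlow hd, ?_⟩
  calc 2 / |Real.log n - Real.log m| ≤ 2 / (|(n : ℝ) - m| / max (m : ℝ) n) :=
        div_le_div_of_nonneg_left (by norm_num) hlow hd
    _ = 2 * MV_c m n := by unfold MV_c; field_simp

/-- expansion of the mean value -/
lemma MV_expand {N : ℕ} (b : ℕ → ℂ) {A L : ℝ} (hL : 0 ≤ L) :
    ∫ t in A..(A + L), ‖h58ep N b t‖ ^ 2 ≤
      ∑ m ∈ Finset.Icc 1 N, ∑ n ∈ Finset.Icc 1 N, ‖b m‖ * ‖b n‖ *
        (if n = m then L else 2 * MV_c m n) := by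
  have hAB : A ≤ A + L := by linarith
  have hpos : 0 ≤ ∫ t in A..(A + L), ‖h58ep N b t‖ ^ 2 :=
    intervalIntegral.integral_nonneg hAB fun t _ => by positivity
  have h1 : ((∫ t in A..(A + L), ‖h58ep N b t‖ ^ 2 : ℝ) : ℂ) =
      ∑ m ∈ Finset.Icc 1 N, ∑ n ∈ Finset.Icc 1 N, b m * (starRingEnd ℂ) (b n) *
        ∫ t in A..(A + L), Complex.exp ((((Real.log n - Real.log m : ℝ) : ℂ) * I) * (t : ℂ)) := by
    rw [← intervalIntegral.integral_ofReal]
    simp_rw [h58_sq]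
    have hc : ∀ m n : ℕ, Continuous fun t : ℝ => b m * (starRingEnd ℂ) (b n) *
        Complex.exp ((((Real.log n - Real.log m : ℝ) : ℂ) * I) * (t : ℂ)) := by
      intro m n
      fun_prop
    rw [intervalIntegral.integral_finsetSum]
    · refine Finset.sum_congr rfl fun m _ => ?_
      rw [intervalIntegral.integral_finsetSum]
      · refine Finset.sum_congr rfl fun n _ => ?_
        rw [intervalIntegral.integral_const_mul]
      · intro n _
        exact (hc m n).intervalIntegrable _ _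
    · intro m _
      exact (continuous_finsetSum _ fun n _ => hc m n).intervalIntegrable _ _
  have h2 : ∀ m ∈ Finset.Icc 1 N, ∀ n ∈ Finset.Icc 1 N,
      ‖∫ t in A..(A + L), Complex.exp ((((Real.log n - Real.log m : ℝ) : ℂ) * I) * (t : ℂ))‖ ≤
        (if n = m then L else 2 * MV_c m n) := by
    intro m hm n hn
    rw [Finset.mem_Icc] at hm hn
    by_cases hmn : n = m
    · subst hmn
      simp only [sub_self, Complex.ofReal_zero, zero_mul, Complex.exp_zero, if_true]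
      simp
      rw [abs_of_nonneg hL]
    · rw [if_neg hmn]
      obtain ⟨h0, h3⟩ := MV_log hm.1 hn.1 hmn
      exact (h58_osc (abs_pos.1 h0)).trans h3
  calc ∫ t in A..(A + L), ‖h58ep N b t‖ ^ 2
      = ‖((∫ t in A..(A + L), ‖h58ep N b t‖ ^ 2 : ℝ) : ℂ)‖ := by
        rw [Complex.norm_real, Real.norm_of_nonneg hpos]
    _ ≤ _ := by
        rw [h1]
        refine (norm_sum_le _ _).trans (Finset.sum_le_sum fun m hm => ?_)
        refine (norm_sum_le _ _).trans (Finset.sum_le_sum fun n hn => ?_)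
        rw [norm_mul, norm_mul, RCLike.norm_conj]
        exact mul_le_mul_of_nonneg_left (h2 m hm n hn) (by positivity)

/-- the sum `∑ k^(-1-δ)` -/
noncomputable def MV_S (δ : ℝ) : ℝ := ∑' k : ℕ, (k : ℝ) ^ (-(1 + δ))

lemma MV_summable {δ : ℝ} (hδ : 0 < δ) : Summable (fun k : ℕ => (k : ℝ) ^ (-(1 + δ))) :=
  Real.summable_nat_rpow.2 (by linarith)

lemma MV_S_pos {δ : ℝ} (hδ : 0 < δ) : 0 < MV_S δ := by
  refine (MV_summable hδ).tsum_pos (fun k => by positivity) 1 ?_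
  simp

lemma MV_sum_le {δ : ℝ} (hδ : 0 < δ) (F : Finset ℕ) (g : ℕ → ℕ)
    (hg : Set.InjOn g F) : ∑ n ∈ F, ((g n : ℕ) : ℝ) ^ (-(1 + δ)) ≤ MV_S δ := by
  rw [← Finset.sum_image (f := fun k : ℕ => (k : ℝ) ^ (-(1 + δ))) hg]
  exact (MV_summable hδ).sum_le_tsum _ fun k _ => by positivity

lemma MV_mono_prod {δ x y : ℝ} (hδ : 0 < δ) (hx : 0 < x) (hy : 0 < y) :
    1 / x * y ^ (-δ) ≤ x ^ (-(1 + δ)) + y ^ (-(1 + δ)) := by
  have hx1 : x ^ (-(1 + δ)) = 1 / x * x ^ (-δ) := by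
    rw [neg_add, Real.rpow_add hx, Real.rpow_neg_one, one_div]
  have hy1 : y ^ (-(1 + δ)) = 1 / y * y ^ (-δ) := by
    rw [neg_add, Real.rpow_add hy, Real.rpow_neg_one, one_div]
  rw [hx1, hy1]
  have px : 0 < x ^ (-δ) := Real.rpow_pos_of_pos hx _
  have py : 0 < y ^ (-δ) := Real.rpow_pos_of_pos hy _
  rcases le_total x y with h | h
  · have h1 : y ^ (-δ) ≤ x ^ (-δ) := Real.rpow_le_rpow_of_nonpos hx h (by linarith)
    have h2 : 1 / x * y ^ (-δ) ≤ 1 / x * x ^ (-δ) := by gcongr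
    have h3 : 0 ≤ 1 / y * y ^ (-δ) := by positivity
    linarith
  · have h1 : 1 / x ≤ 1 / y := one_div_le_one_div_of_le hy h
    have h2 : 1 / x * y ^ (-δ) ≤ 1 / y * y ^ (-δ) := by gcongr
    have h3 : 0 ≤ 1 / x * x ^ (-δ) := by positivity
    linarith

lemma MV_row {δ : ℝ} (hδ : 0 < δ) {N m : ℕ} (hm : 1 ≤ m) (hmN : m ≤ N) :
    ∑ n ∈ (Finset.Icc 1 N).erase m, MV_c m n * ((m : ℝ) / n) ^ (1 + δ) ≤
      4 * MV_S δ * (m : ℝ) ^ (1 + δ) := by
  have hm0 : (0 : ℝ) < m := by exact_mod_cast hm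
  have hsplit : (Finset.Icc 1 N).erase m = (Finset.Ico 1 m) ∪ (Finset.Ioc m N) := by
    ext n
    simp only [Finset.mem_erase, Finset.mem_Icc, Finset.mem_union, Finset.mem_Ico, Finset.mem_Ioc]
    omega
  have hdisj : Disjoint (Finset.Ico 1 m) (Finset.Ioc m N) := by
    rw [Finset.disjoint_left]
    intro n h1 h2
    simp only [Finset.mem_Ico, Finset.mem_Ioc] at h1 h2
    omega
  rw [hsplit, Finset.sum_union hdisj]
  have hM : 0 < (m : ℝ) ^ (1 + δ) := Real.rpow_pos_of_pos hm0 _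
  -- the terms `n < m`
  have h1 : ∑ n ∈ Finset.Ico 1 m, MV_c m n * ((m : ℝ) / n) ^ (1 + δ) ≤
      3 * MV_S δ * (m : ℝ) ^ (1 + δ) := by
    have hterm : ∀ n ∈ Finset.Ico 1 m, MV_c m n * ((m : ℝ) / n) ^ (1 + δ) ≤
        (m : ℝ) ^ (1 + δ) * (2 * (n : ℝ) ^ (-(1 + δ)) + ((m - n : ℕ) : ℝ) ^ (-(1 + δ))) := by
      intro n hn
      obtain ⟨hn1, hn2⟩ := Finset.mem_Ico.1 hn
      have hn0 : (0 : ℝ) < n := by exact_mod_cast hn1
      have hnm : (n : ℝ) < m := by exact_mod_cast hn2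
      have hk : (0 : ℝ) < (m : ℝ) - n := by linarith
      rw [Nat.cast_sub hn2.le]
      have e1 : MV_c m n = m / ((m : ℝ) - n) := by
        unfold MV_c
        rw [max_eq_left hnm.le, abs_sub_comm, abs_of_pos hk]
      have e2 : ((m : ℝ) / n) ^ (1 + δ) = (m : ℝ) ^ (1 + δ) * (1 / n * (n : ℝ) ^ (-δ)) := by
        rw [Real.div_rpow hm0.le hn0.le, div_eq_mul_inv, ← Real.rpow_neg hn0.le, neg_add,
          Real.rpow_add hn0, Real.rpow_neg_one, one_div]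
      have e3 : MV_c m n * ((m : ℝ) / n) ^ (1 + δ) =
          (m : ℝ) ^ (1 + δ) * (1 / n * (n : ℝ) ^ (-δ) + 1 / ((m : ℝ) - n) * (n : ℝ) ^ (-δ)) := by
        rw [e1, e2]
        have : (m : ℝ) / (m - n) * (1 / n) = 1 / n + 1 / ((m : ℝ) - n) := by
          field_simp
          ring
        calc (m : ℝ) / (m - n) * ((m : ℝ) ^ (1 + δ) * (1 / n * (n : ℝ) ^ (-δ)))
            = (m : ℝ) ^ (1 + δ) * (((m : ℝ) / (m - n) * (1 / n)) * (n : ℝ) ^ (-δ)) := by ring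
          _ = _ := by rw [this]; ring
      rw [e3]
      refine mul_le_mul_of_nonneg_left ?_ hM.le
      have e4 : (n : ℝ) ^ (-(1 + δ)) = 1 / n * (n : ℝ) ^ (-δ) := by
        rw [neg_add, Real.rpow_add hn0, Real.rpow_neg_one, one_div]
      have h5 := MV_mono_prod hδ hk hn0
      linarith [e4]
    refine (Finset.sum_le_sum hterm).trans ?_
    rw [← Finset.mul_sum, Finset.sum_add_distrib, ← Finset.mul_sum]
    have s1 := MV_sum_le hδ (Finset.Ico 1 m) id (Function.injective_id.injOn)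
    have s2 := MV_sum_le hδ (Finset.Ico 1 m) (fun n => m - n) (by
      intro x hx y hy hxy
      simp only [Finset.coe_Ico, Set.mem_Ico] at hx hy
      simp only at hxy
      omega)
    simp only [id] at s1
    nlinarith
  have h2 : ∑ n ∈ Finset.Ioc m N, MV_c m n * ((m : ℝ) / n) ^ (1 + δ) ≤
      MV_S δ * (m : ℝ) ^ (1 + δ) := by
    have hterm : ∀ n ∈ Finset.Ioc m N, MV_c m n * ((m : ℝ) / n) ^ (1 + δ) ≤
        (m : ℝ) ^ (1 + δ) * ((n - m : ℕ) : ℝ) ^ (-(1 + δ)) := by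
      intro n hn
      obtain ⟨hn1, hn2⟩ := Finset.mem_Ioc.1 hn
      have hnm : (m : ℝ) < n := by exact_mod_cast hn1
      have hn0 : (0 : ℝ) < n := hm0.trans hnm
      have hk : (0 : ℝ) < (n : ℝ) - m := by linarith
      rw [Nat.cast_sub hn1.le]
      have e1 : MV_c m n = n / ((n : ℝ) - m) := by
        unfold MV_c
        rw [max_eq_right hnm.le, abs_of_pos hk]
      have e2 : ((m : ℝ) / n) ^ (1 + δ) = (m : ℝ) ^ (1 + δ) * (1 / n * (n : ℝ) ^ (-δ)) := by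
        rw [Real.div_rpow hm0.le hn0.le, div_eq_mul_inv, ← Real.rpow_neg hn0.le, neg_add,
          Real.rpow_add hn0, Real.rpow_neg_one, one_div]
      have e3 : MV_c m n * ((m : ℝ) / n) ^ (1 + δ) =
          (m : ℝ) ^ (1 + δ) * (1 / ((n : ℝ) - m) * (n : ℝ) ^ (-δ)) := by
        rw [e1, e2]
        field_simp
      rw [e3]
      refine mul_le_mul_of_nonneg_left ?_ hM.le
      have e4 : ((n : ℝ) - m) ^ (-(1 + δ)) = 1 / ((n : ℝ) - m) * ((n : ℝ) - m) ^ (-δ) := by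
        rw [neg_add, Real.rpow_add hk, Real.rpow_neg_one, one_div]
      rw [e4]
      have h6 : (n : ℝ) ^ (-δ) ≤ ((n : ℝ) - m) ^ (-δ) :=
        Real.rpow_le_rpow_of_nonpos hk (by linarith) (by linarith)
      gcongr
    refine (Finset.sum_le_sum hterm).trans ?_
    rw [← Finset.mul_sum, mul_comm]
    refine mul_le_mul_of_nonneg_right ?_ hM.le
    exact MV_sum_le hδ (Finset.Ioc m N) (fun n => n - m) (by
      intro x hx y hy hxy
      simp only [Finset.coe_Ioc, Set.mem_Ioc] at hx hy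
      simp only at hxy
      omega)
  linarith

lemma MV_icc {δ : ℝ} (hδ : 0 < δ) {N : ℕ} (b : ℕ → ℂ) {A L : ℝ} (hL : 0 ≤ L) :
    ∫ t in A..(A + L), ‖h58ep N b t‖ ^ 2 ≤
      ∑ m ∈ Finset.Icc 1 N, ‖b m‖ ^ 2 * (L + 8 * MV_S δ * (m : ℝ) ^ (1 + δ)) := by
  refine (MV_expand b hL).trans ?_
  have hdiag : ∑ m ∈ Finset.Icc 1 N, ∑ n ∈ Finset.Icc 1 N, ‖b m‖ * ‖b n‖ *
        (if n = m then L else 2 * MV_c m n) =
      ∑ m ∈ Finset.Icc 1 N, ‖b m‖ ^ 2 * L +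
      ∑ m ∈ Finset.Icc 1 N, ∑ n ∈ (Finset.Icc 1 N).erase m, ‖b m‖ * ‖b n‖ * (2 * MV_c m n) := by
    rw [← Finset.sum_add_distrib]
    refine Finset.sum_congr rfl fun m hm => ?_
    rw [← Finset.add_sum_erase _ _ hm]
    congr 1
    · rw [if_pos rfl]; ring
    · refine Finset.sum_congr rfl fun n hn => ?_
      rw [if_neg (Finset.ne_of_mem_erase hn)]
  rw [hdiag]
  have hpt : ∀ m ∈ Finset.Icc 1 N, ∀ n ∈ (Finset.Icc 1 N).erase m,
      ‖b m‖ * ‖b n‖ * (2 * MV_c m n) ≤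
        ‖b m‖ ^ 2 * (MV_c m n * ((m : ℝ) / n) ^ (1 + δ)) +
        ‖b n‖ ^ 2 * (MV_c n m * ((n : ℝ) / m) ^ (1 + δ)) := by
    intro m hm n hn
    have hm0 : (0 : ℝ) < m := by exact_mod_cast (Finset.mem_Icc.1 hm).1
    have hn0 : (0 : ℝ) < n := by
      exact_mod_cast (Finset.mem_Icc.1 (Finset.mem_of_mem_erase hn)).1
    rw [MV_c_symm n m]
    have hw : 0 < ((m : ℝ) / n) ^ (1 + δ) := Real.rpow_pos_of_pos (by positivity) _
    have hw2 : ((n : ℝ) / m) ^ (1 + δ) = (((m : ℝ) / n) ^ (1 + δ))⁻¹ := by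
      rw [← Real.inv_rpow (by positivity), inv_div]
    rw [hw2]
    set w := ((m : ℝ) / n) ^ (1 + δ) with hwdef
    have hc := MV_c_nonneg m n
    have key : 2 * (‖b m‖ * ‖b n‖) ≤ ‖b m‖ ^ 2 * w + ‖b n‖ ^ 2 * w⁻¹ := by
      have h0 : 0 ≤ (‖b m‖ * w - ‖b n‖) ^ 2 * w⁻¹ := by positivity
      have h1 : (‖b m‖ * w - ‖b n‖) ^ 2 * w⁻¹ =
          ‖b m‖ ^ 2 * w + ‖b n‖ ^ 2 * w⁻¹ - 2 * (‖b m‖ * ‖b n‖) := by
        field_simp
        ring
      linarith
    nlinarith [mul_le_mul_of_nonneg_right key hc]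
  have hsum : ∑ m ∈ Finset.Icc 1 N, ∑ n ∈ (Finset.Icc 1 N).erase m,
      ‖b m‖ * ‖b n‖ * (2 * MV_c m n) ≤
      2 * ∑ m ∈ Finset.Icc 1 N, ‖b m‖ ^ 2 *
        ∑ n ∈ (Finset.Icc 1 N).erase m, MV_c m n * ((m : ℝ) / n) ^ (1 + δ) := by
    refine (Finset.sum_le_sum fun m hm => Finset.sum_le_sum fun n hn => hpt m hm n hn).trans ?_
    simp_rw [Finset.sum_add_distrib]
    have e : ∑ m ∈ Finset.Icc 1 N, ∑ n ∈ (Finset.Icc 1 N).erase m,
          ‖b n‖ ^ 2 * (MV_c n m * ((n : ℝ) / m) ^ (1 + δ)) =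
        ∑ m ∈ Finset.Icc 1 N, ∑ n ∈ (Finset.Icc 1 N).erase m,
          ‖b m‖ ^ 2 * (MV_c m n * ((m : ℝ) / n) ^ (1 + δ)) := by
      rw [Finset.sum_comm' (t' := Finset.Icc 1 N) (s' := fun n => (Finset.Icc 1 N).erase n)]
      intro x y
      simp only [Finset.mem_erase, Finset.mem_Icc]
      constructor
      · rintro ⟨h1, h2, h3⟩
        exact ⟨⟨fun h => h2 h.symm, h1⟩, h3⟩
      · rintro ⟨⟨h1, h2⟩, h3⟩
        exact ⟨h2, fun h => h1 h.symm, h3⟩
    rw [e, two_mul, ← Finset.sum_add_distrib, ← Finset.sum_add_distrib]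
    refine le_of_eq (Finset.sum_congr rfl fun m _ => ?_)
    rw [Finset.mul_sum]
  have hrow : ∑ m ∈ Finset.Icc 1 N, ‖b m‖ ^ 2 *
        ∑ n ∈ (Finset.Icc 1 N).erase m, MV_c m n * ((m : ℝ) / n) ^ (1 + δ) ≤
      ∑ m ∈ Finset.Icc 1 N, ‖b m‖ ^ 2 * (4 * MV_S δ * (m : ℝ) ^ (1 + δ)) := by
    refine Finset.sum_le_sum fun m hm => ?_
    obtain ⟨h1, h2⟩ := Finset.mem_Icc.1 hm
    exact mul_le_mul_of_nonneg_left (MV_row hδ h1 h2) (by positivity)
  calc _ ≤ ∑ m ∈ Finset.Icc 1 N, ‖b m‖ ^ 2 * L +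
        2 * ∑ m ∈ Finset.Icc 1 N, ‖b m‖ ^ 2 * (4 * MV_S δ * (m : ℝ) ^ (1 + δ)) := by linarith
    _ = _ := by
        rw [Finset.mul_sum, ← Finset.sum_add_distrib]
        refine Finset.sum_congr rfl fun m _ => ?_
        ring

theorem mv (δ : ℝ) (hδ : 0 < δ) (hδ1 : δ ≤ 1) : ∃ C : ℝ, 0 < C ∧
    ∀ (S : Finset ℕ) (a : ℕ → ℂ) (A L : ℝ), 0 ∉ S → 0 ≤ L →
      ∫ t in A..(A + L), ‖∑ n ∈ S, a n * (n : ℂ) ^ (-(t * I))‖ ^ 2
        ≤ ∑ n ∈ S, ‖a n‖ ^ 2 * (L + C * (n : ℝ) ^ (1 + δ)) := by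
  refine ⟨8 * MV_S δ, by have := MV_S_pos hδ; positivity, ?_⟩
  intro S a A L h0 hL
  classical
  obtain ⟨N, hN⟩ : ∃ N : ℕ, S ⊆ Finset.Icc 1 N := by
    refine ⟨S.sup id, fun n hn => Finset.mem_Icc.2 ⟨?_, Finset.le_sup (f := id) hn⟩⟩
    rcases Nat.eq_zero_or_pos n with h | h
    · exact absurd (h ▸ hn) h0
    · exact h
  set b : ℕ → ℂ := fun n => if n ∈ S then a n else 0 with hb
  have e1 : ∀ t : ℝ, ∑ n ∈ S, a n * (n : ℂ) ^ (-(t * I)) = h58ep N b t := by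
    intro t
    unfold h58ep
    rw [← Finset.sum_subset hN]
    · refine Finset.sum_congr rfl fun n hn => ?_
      have hn1 : 1 ≤ n := (Finset.mem_Icc.1 (hN hn)).1
      have hn0 : (n : ℂ) ≠ 0 := by exact_mod_cast (by omega : n ≠ 0)
      rw [Complex.cpow_def_of_ne_zero hn0, ← Complex.natCast_log]
      simp only [hb, if_pos hn]
      congr 2
      ring
    · intro n _ hn
      simp [hb, hn]
  simp_rw [e1]
  refine (MV_icc hδ b hL).trans ?_
  rw [← Finset.sum_subset hN]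
  · refine Finset.sum_le_sum fun n hn => ?_
    simp [hb, hn]
  · intro n _ hn
    simp [hb, hn]

end Pool.Agent.helper84.DM
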